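import Pool.Agent.Helper61.TQ.Core

set_option autoImplicit false

/-! From programs with function calls to programs with NP queries. -/

namespace Pool.Agent.Helper61.TQ

open Pool.Agent.Helper58 Pool.Agent.Helper53.CL Pool.Agent.Helper52.Grid

/-- cutting a word into `c` blocks of length `m` -/
def callBlocks (m c : ℕ) (w : W) : List W := (List.range c).map (fun i => (w.drop (i * m)).take m)

theorem call_blocks_append (m c : ℕ) (A B : W) (hA : A.length = c * m) :
    callBlocks m c (A ++ B) = callBlocks m c A := by
  unfold callBlocks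
  apply List.map_congr_left
  intro i hi
  rw [List.mem_range] at hi
  have h1 : i * m + m ≤ c * m := by
    have : (i + 1) * m ≤ c * m := Nat.mul_le_mul_right _ hi
    linarith [this, (by ring : (i + 1) * m = i * m + m)]
  rw [List.drop_append_of_le_length (by omega), List.take_append_of_le_length]
  rw [List.length_drop]
  omega

theorem call_blocks_succ (m c : ℕ) (A B : W) (hA : A.length = c * m) (hB : B.length = m) :
    callBlocks m (c + 1) (A ++ B) = callBlocks m c A ++ [B] := by
  have h1 : callBlocks m (c + 1) (A ++ B) =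
      callBlocks m c (A ++ B) ++ [((A ++ B).drop (c * m)).take m] := by
    unfold callBlocks
    rw [List.range_succ, List.map_append]
    rfl
  rw [h1, call_blocks_append m c A B hA, ← hA, List.drop_left, ← hB, List.take_length]

open Classical in
theorem call_tr_succ (Q : W → Prop) (q : ℕ) : tr Q (q + 1) = tr Q q ++ [decide (Q (tr Q q))] := rfl

theorem call_tr_length (Q : W → Prop) (q : ℕ) : (tr Q q).length = q := by
  induction q with
  | zero => rfl
  | succ q ih =>
    change (tr Q q ++ [_]).length = q + 1
    rw [List.length_append, ih]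
    rfl

/-- the queries of the calls -/
def callQ (n : ℕ) (R : List W → W → Prop) (a : W) : Prop :=
  ∃ y : W, y.length = n ∧ a.drop (a.length / (n + 1) * (n + 1)) ++ [true] <+: true :: y ∧
    R (callBlocks (n + 1) (a.length / (n + 1)) a) y

theorem call_inner (n : ℕ) (R : List W → W → Prop) (c : ℕ) (A : W) (hA : A.length = c * (n + 1)) :
    ∀ a' : W, a'.length < n + 1 → (callQ n R (A ++ a') ↔
      ∃ y : W, y.length = n ∧ a' ++ [true] <+: true :: y ∧ R (callBlocks (n + 1) c A) y) := by
  intro a' ha'
  have h1 : (A ++ a').length / (n + 1) = c := by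
    rw [List.length_append, hA, Nat.mul_comm c, Nat.mul_add_div (by omega),
      Nat.div_eq_of_lt ha', Nat.add_zero]
  unfold callQ
  rw [h1, call_blocks_append (n + 1) c A a' hA, ← hA, List.drop_left]

theorem call_main (hANS : ST_ANS) (n : ℕ) (R : List W → W → Prop) (c : ℕ) :
    callBlocks (n + 1) c (tr (callQ n R) (c * (n + 1))) = res n R c := by
  induction c with
  | zero => rfl
  | succ c ih =>
    set A := tr (callQ n R) (c * (n + 1)) with hA
    have hAl : A.length = c * (n + 1) := call_tr_length _ _
    have hj : ∀ j, j ≤ n + 1 → tr (callQ n R) (c * (n + 1) + j) = A ++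
        tr (fun a' => ∃ y : W, y.length = n ∧ a' ++ [true] <+: true :: y ∧ R (res n R c) y) j := by
      intro j
      induction j with
      | zero => intro _; exact (List.append_nil A).symm
      | succ j ihj =>
        intro hj
        have h1 := ihj (by omega)
        have h2 := call_inner n R c A hAl (tr (fun a' => ∃ y : W, y.length = n ∧
          a' ++ [true] <+: true :: y ∧ R (res n R c) y) j) (by rw [call_tr_length]; omega)
        rw [ih] at h2
        rw [← add_assoc, call_tr_succ, call_tr_succ, h1, List.append_assoc]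
        congr 3
        exact decide_eq_decide.2 h2
    have h3 := hj (n + 1) le_rfl
    have e : (c + 1) * (n + 1) = c * (n + 1) + (n + 1) := by ring
    rw [e, h3]
    change callBlocks (n + 1) (c + 1) (A ++ ans n (R (res n R c))) = res n R c ++ [ans n (R (res n R c))]
    rw [call_blocks_succ (n + 1) c A _ hAl (hANS n (R (res n R c))).1, ih]

section ptf
variable {γ α : Type} [Enc γ] [Enc α]

theorem call_ptf_take {l : γ → List α} {n : γ → ℕ} (hl : PTf l) (hn : PTf n) :
    PTf (fun x => (l x).take (n x)) := by
  have h : PTf (fun x => ((l x).reverse.drop ((l x).length - n x)).reverse) := by fun_prop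
  refine h.congr (fun x => ?_)
  rw [List.drop_reverse, List.reverse_reverse]
  by_cases hx : n x ≤ (l x).length
  · congr 1; omega
  · rw [List.take_of_length_le (by omega), List.take_of_length_le (by omega)]

theorem call_ptf_div {m k : γ → ℕ} (hm : PTf m) (hk : PTf k) :
    PTf (fun x => m x / (k x + 1)) := by
  have : PTf (fun x => ((List.range (m x)).filter
      (fun i => decide ((i + 1) * (k x + 1) ≤ m x))).length) := by
    fun_prop
  exact this.congr (fun x => (card_div _ _ (Nat.succ_pos _)).symm)

theorem call_ptf_blocks {m c : γ → ℕ} {w : γ → W} (hm : PTf m) (hc : PTf c) (hw : PTf w) :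
    PTf (fun x => callBlocks (m x) (c x) (w x)) := by
  unfold callBlocks
  apply PTf.map (by fun_prop)
  apply call_ptf_take <;> fun_prop

end ptf

theorem st_CALL (hANS : ST_ANS) (hNPC : ST_NPC) : ST_CALL := by
  intro S ⟨P⟩
  obtain ⟨hdec, hcomp, hand, _, hex⟩ := hNPC
  refine ⟨{
    Q := fun n r a => callQ n (P.R n r) a
    t := fun n => P.t n * (n + 1)
    ℓ := P.ℓ
    good := fun n _ a => P.good n (callBlocks (n + 1) (P.t n) a)
    alg := fun n _ a X => P.alg n (callBlocks (n + 1) (P.t n) a) X
    pQ := ?_
    pt := ?_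
    pℓ := P.pℓ
    pgood := ?_
    palg := ?_
    sound := fun n r a X h => P.sound n _ X h
    complete := ?_
    learn := ?_ }⟩
  · have h1 : NPf (fun x : (ℕ × (W × W)) × W => (decide (x.2.length = x.1.1) &&
        decide ((x.1.2.2.drop (x.1.2.2.length / (x.1.1 + 1) * (x.1.1 + 1)) ++ [true]) =
          (true :: x.2).take ((x.1.2.2.drop (x.1.2.2.length / (x.1.1 + 1) * (x.1.1 + 1)) ++
            [true]).length))) = true) := by
      apply hdec
      have hd : PTf (fun x : (ℕ × (W × W)) × W => x.1.2.2.length / (x.1.1 + 1)) :=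
        call_ptf_div (by fun_prop) (by fun_prop)
      have hd2 : PTf (fun x : (ℕ × (W × W)) × W =>
          x.1.2.2.drop (x.1.2.2.length / (x.1.1 + 1) * (x.1.1 + 1)) ++ [true]) := by
        apply PTf.append _ (PTf.const _)
        apply ptf_drop (by fun_prop)
        exact ptf_mul hd (by fun_prop)
      apply PTf.and
      · fun_prop
      · apply PTf.decEq hd2
        apply call_ptf_take (by fun_prop)
        exact PTf.length hd2
    have h2 : NPf (fun x : (ℕ × (W × W)) × W =>
        P.R x.1.1 x.1.2.1 (callBlocks (x.1.1 + 1) (x.1.2.2.length / (x.1.1 + 1)) x.1.2.2) x.2) := by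
      apply hcomp (fun x : (ℕ × W) × (List W × W) => P.R x.1.1 x.1.2 x.2.1 x.2.2)
        (fun x : (ℕ × (W × W)) × W => ((x.1.1, x.1.2.1),
          (callBlocks (x.1.1 + 1) (x.1.2.2.length / (x.1.1 + 1)) x.1.2.2, x.2))) P.pR
      have hd : PTf (fun x : (ℕ × (W × W)) × W => x.1.2.2.length / (x.1.1 + 1)) :=
        call_ptf_div (by fun_prop) (by fun_prop)
      have hb : PTf (fun x : (ℕ × (W × W)) × W =>
          callBlocks (x.1.1 + 1) (x.1.2.2.length / (x.1.1 + 1)) x.1.2.2) :=
        call_ptf_blocks (by fun_prop) hd (by fun_prop)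
      exact PTf.pair (by fun_prop) (PTf.pair hb (by fun_prop))
    have h12 := @hand ((ℕ × (W × W)) × W) inferInstance _ _ h1 h2
    have h3 := @hex (ℕ × (W × W)) inferInstance
      (fun (a : ℕ × (W × W)) (w : W) => ((decide (w.length = a.1) &&
        decide ((a.2.2.drop (a.2.2.length / (a.1 + 1) * (a.1 + 1)) ++ [true]) =
          (true :: w).take ((a.2.2.drop (a.2.2.length / (a.1 + 1) * (a.1 + 1)) ++
            [true]).length))) = true) ∧
        P.R a.1 a.2.1 (callBlocks (a.1 + 1) (a.2.2.length / (a.1 + 1)) a.2.2) w)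
      (fun a => a.1) h12 (by fun_prop)
    have h4 : (fun x : ℕ × (W × W) => callQ x.1 (P.R x.1 x.2.1) x.2.2) =
        (fun a : ℕ × (W × W) => ∃ w : W, w.length ≤ a.1 ∧ ((decide (w.length = a.1) &&
        decide ((a.2.2.drop (a.2.2.length / (a.1 + 1) * (a.1 + 1)) ++ [true]) =
          (true :: w).take ((a.2.2.drop (a.2.2.length / (a.1 + 1) * (a.1 + 1)) ++
            [true]).length))) = true ∧
        P.R a.1 a.2.1 (callBlocks (a.1 + 1) (a.2.2.length / (a.1 + 1)) a.2.2) w)) := by
      funext a
      apply propext
      unfold callQ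
      apply exists_congr
      intro y
      rw [Bool.and_eq_true, decide_eq_true_iff, decide_eq_true_iff, List.prefix_iff_eq_take]
      constructor
      · rintro ⟨h5, h6, h7⟩
        exact ⟨h5.le, ⟨h5, h6⟩, h7⟩
      · rintro ⟨_, ⟨h5, h6⟩, h7⟩
        exact ⟨h5, h6, h7⟩
    rw [h4]
    exact h3
  · exact ptf_mul P.pt (by fun_prop)
  · have hb : PTf (fun x : ℕ × (W × W) => callBlocks (x.1 + 1) (P.t x.1) x.2.2) :=
      call_ptf_blocks (by fun_prop) (PTf.comp P.pt (by fun_prop)) (by fun_prop)
    exact PTf.comp P.pgood (PTf.pair (by fun_prop) hb)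
  · have hb : PTf (fun x : (ℕ × (W × W)) × W => callBlocks (x.1.1 + 1) (P.t x.1.1) x.1.2.2) :=
      call_ptf_blocks (by fun_prop) (PTf.comp P.pt (by fun_prop)) (by fun_prop)
    exact PTf.comp P.palg (PTf.pair (PTf.pair (by fun_prop) hb) (by fun_prop))
  · intro n r hr hg X hX hXK
    rw [call_main hANS] at hg ⊢
    exact P.complete n r hr hg X hX hXK
  · intro n h
    have := P.learn n h
    simp only [call_main hANS]
    exact this

end Pool.Agent.Helper61.TQ
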