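import Pool.Agent.Helper61.TQ.Core

set_option autoImplicit false

/-! The probability of failure of the learning program. -/

namespace Pool.Agent.Helper61.TQ

open Pool.Agent.Helper58 Pool.Agent.Helper53.CL Pool.Agent.Helper52.Grid

theorem prob_ind_le_one (p : Prop) : ind p ≤ 1 := by
  unfold ind
  split_ifs
  · exact le_rfl
  · exact zero_le_one

theorem prob_ind_nonneg (p : Prop) : 0 ≤ ind p := by
  unfold ind
  split_ifs
  · exact zero_le_one
  · exact le_rfl

theorem prob_ind_true {p : Prop} (h : p) : ind p = 1 := by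
  unfold ind
  rw [if_pos h]

theorem prob_ind_false {p : Prop} (h : ¬ p) : ind p = 0 := by
  unfold ind
  rw [if_neg h]

theorem prob_cands (S : Sys) (n : ℕ) (L : List W) (u v : W) (hu : u.length = JJ n * hs n) :
    S.cands n L (u ++ v) = S.cands n L u := by
  unfold Sys.cands
  apply List.map_congr_left
  intro s hs'
  rw [List.mem_range] at hs'
  have h1 : s * hs n + hs n ≤ JJ n * hs n := by
    have : (s + 1) * hs n ≤ JJ n * hs n := Nat.mul_le_mul_right _ hs'
    linarith [this, (by ring : (s + 1) * hs n = s * hs n + hs n)]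
  have h2 : ((u ++ v).drop (s * hs n)).take (hs n) = (u.drop (s * hs n)).take (hs n) := by
    rw [List.drop_append_of_le_length (by omega), List.take_append_of_le_length]
    rw [List.length_drop]
    omega
  rw [h2]

theorem prob_mem_CS (S : Sys) (n : ℕ) (L : List W) (ρ : W) :
    ρ ∈ S.CS n L ↔ ρ.length = n ∧ ∀ X ∈ L, S.solves ρ X = true := by
  unfold Sys.CS Sys.cons
  rw [Finset.mem_filter, Finset.mem_image, List.all_eq_true]
  constructor
  · rintro ⟨⟨f, _, rfl⟩, h⟩
    exact ⟨List.length_ofFn, h⟩
  · rintro ⟨h1, h2⟩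
    refine ⟨⟨fun i => ρ.get (i.cast h1.symm), Finset.mem_univ _, ?_⟩, h2⟩
    subst h1
    exact List.ofFn_get ρ

theorem prob_main (hANS : ST_ANS) (hAVG : ST_AVG) (hFRESH : ST_FRESH) (S : Sys) (n : ℕ) (ρ : W)
    (hρ : S.Perfect n ρ) :
    ∀ (d : ℕ) (L : List W), d ≤ n + 1 → (∀ X ∈ L, X.length = n ∧ X ∈ S.K) →
      (S.CS n L).card * 2 ^ (n + 1 - d) ≤ 2 ^ n →
      avg (d * (JJ n * hs n)) (fun r => ind (S.fails n d L r)) ≤ (d : ℝ) / 2 ^ (n + 4) := by
  obtain ⟨hmono, hadd, _, hconst, happ, _, _, _⟩ := hAVG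
  intro d
  induction d with
  | zero =>
    intro L _ hL hcard
    exfalso
    have h1 : ρ ∈ S.CS n L := (prob_mem_CS S n L ρ).2
      ⟨hρ.1, fun X hX => hρ.2 X (hL X hX).1 (hL X hX).2⟩
    have h2 : 0 < (S.CS n L).card := Finset.card_pos.2 ⟨ρ, h1⟩
    have h3 : 1 * 2 ^ (n + 1 - 0) ≤ (S.CS n L).card * 2 ^ (n + 1 - 0) :=
      Nat.mul_le_mul_right _ h2
    have h4 : 2 ^ (n + 1 - 0) = 2 * 2 ^ n := by rw [Nat.sub_zero, pow_succ]; ring
    have h5 : 0 < 2 ^ n := by positivity
    omega
  | succ d ih =>
    intro L hd hL hcard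
    have h1 : ρ ∈ S.CS n L := (prob_mem_CS S n L ρ).2
      ⟨hρ.1, fun X hX => hρ.2 X (hL X hX).1 (hL X hX).2⟩
    have hsplit : (d + 1) * (JJ n * hs n) = JJ n * hs n + d * (JJ n * hs n) := by ring
    rw [hsplit, happ]
    have hinner : ∀ u : W, u.length = JJ n * hs n →
        avg (d * (JJ n * hs n)) (fun v => ind (S.fails n (d + 1) L (u ++ v))) ≤
          ind (¬ S.Good n L u) + (d : ℝ) / 2 ^ (n + 4) := by
      intro u hu
      have hd0 : (0 : ℝ) ≤ (d : ℝ) / 2 ^ (n + 4) := by positivity
      by_cases hG : S.Good n L u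
      · rw [prob_ind_false (not_not.2 hG), zero_add]
        have hf : ∀ v : W, S.fails n (d + 1) L (u ++ v) ↔
            ((ans n (S.RX n (S.cands n L u))).headD false = true ∧
              S.fails n d (L ++ [(ans n (S.RX n (S.cands n L u))).tail]) v) := by
          intro v
          have e1 : (u ++ v).drop (JJ n * hs n) = v := by
            rw [← hu, List.drop_left]
          change ((ans n (S.RX n (S.cands n L (u ++ v)))).headD false = true ∧
              S.fails n d (L ++ [(ans n (S.RX n (S.cands n L (u ++ v)))).tail])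
                ((u ++ v).drop (JJ n * hs n))) ↔ _
          rw [prob_cands S n L u v hu, e1]
        by_cases hh : (ans n (S.RX n (S.cands n L u))).headD false = true
        · obtain ⟨_, _, hans⟩ := hANS n (S.RX n (S.cands n L u))
          obtain ⟨hX1, hX2, hX3⟩ := hans hh
          set X := (ans n (S.RX n (S.cands n L u))).tail with hX
          have hlt : 2 * (S.CS n (L ++ [X])).card < (S.CS n L).card := by
            by_contra hno
            obtain ⟨τ, hτ, hτs⟩ := hG X hX1 (not_lt.1 hno)
            rw [hX3 τ hτ] at hτs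
            exact absurd hτs (by decide)
          have hc2 : (S.CS n (L ++ [X])).card * 2 ^ (n + 1 - d) ≤ 2 ^ n := by
            have e : n + 1 - d = (n + 1 - (d + 1)) + 1 := by omega
            rw [e, pow_succ]
            calc (S.CS n (L ++ [X])).card * (2 ^ (n + 1 - (d + 1)) * 2)
                = (2 * (S.CS n (L ++ [X])).card) * 2 ^ (n + 1 - (d + 1)) := by ring
              _ ≤ (S.CS n L).card * 2 ^ (n + 1 - (d + 1)) := Nat.mul_le_mul_right _ hlt.le
              _ ≤ 2 ^ n := hcard
          refine le_trans (hmono _ _ (fun v => ind (S.fails n d (L ++ [X]) v)) ?_)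
            (ih (L ++ [X]) (by omega) ?_ hc2)
          · intro v _
            have : S.fails n (d + 1) L (u ++ v) ↔ S.fails n d (L ++ [X]) v := by
              rw [hf v]
              exact ⟨fun h => h.2, fun h => ⟨hh, h⟩⟩
            rw [this]
          · intro Y hY
            rw [List.mem_append, List.mem_singleton] at hY
            rcases hY with hY | hY
            · exact hL Y hY
            · rw [hY]; exact ⟨hX1, hX2⟩
        · refine le_trans (hmono _ _ (fun _ => 0) ?_) (by rw [hconst]; exact hd0)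
          intro v _
          rw [prob_ind_false]
          rw [hf v]
          exact fun h => hh h.1
      · rw [prob_ind_true hG]
        refine le_trans (hmono _ _ (fun _ => 1) (fun v _ => prob_ind_le_one _)) ?_
        rw [hconst]
        linarith
    refine le_trans (hmono _ _ _ hinner) ?_
    rw [hadd, hconst]
    have hF := hFRESH S n L ⟨ρ, h1⟩
    push_cast
    rw [add_div, add_comm ((d : ℝ) / 2 ^ (n + 4))]
    linarith

theorem st_PROB (hANS : ST_ANS) (hAVG : ST_AVG) (hFRESH : ST_FRESH) : ST_PROB := by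
  intro S n ρ hρ
  have hcard : (S.CS n []).card * 2 ^ (n + 1 - (n + 1)) ≤ 2 ^ n := by
    rw [Nat.sub_self, pow_zero, mul_one]
    unfold Sys.CS
    refine le_trans (Finset.card_filter_le _ _) (le_trans Finset.card_image_le ?_)
    rw [Finset.card_univ, Fintype.card_fun, Fintype.card_bool, Fintype.card_fin]
  refine le_trans (prob_main hANS hAVG hFRESH S n ρ hρ (n + 1) [] le_rfl (by simp) hcard) ?_
  rw [div_le_iff₀ (by positivity)]
  have h1 : (n : ℝ) + 1 ≤ 2 ^ n := by
    have : n + 1 ≤ 2 ^ n := Nat.lt_two_pow_self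
    exact_mod_cast this
  have h2 : (2 : ℝ) ^ (n + 4) = 2 ^ n * 16 := by rw [pow_add]; norm_num
  rw [h2]
  push_cast
  have h3 : (0 : ℝ) < 2 ^ n := by positivity
  linarith

end Pool.Agent.Helper61.TQ
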