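import Pool.Agent.Helper61.TQ.Core

set_option autoImplicit false

/-! The learning program as a sequence of rounds. -/

namespace Pool.Agent.Helper61.TQ

open Pool.Agent.Helper58 Pool.Agent.Helper53.CL Pool.Agent.Helper52.Grid

theorem rnd_succ (n : ℕ) (R : List W → W → Prop) (c : ℕ) :
    state n (res n R (c + 1)) = stepSt (JJ n) (state n (res n R c)) (ans n (R (res n R c))) := by
  unfold state
  change (res n R c ++ [ans n (R (res n R c))]).foldl (stepSt (JJ n)) st0 = _
  rw [List.foldl_append]
  rfl

theorem rnd_step_flag (J : ℕ) (s : St) (w : W) (h : s.2.1 = true) : (stepSt J s w).2.1 = true := by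
  unfold stepSt
  split_ifs with h1
  · exact h
  · cases w.headD false
    · rfl
    · exact h

theorem rnd_flag (n : ℕ) (R : List W → W → Prop) (c c' : ℕ) (hc : c ≤ c')
    (h : (state n (res n R c)).2.1 = true) : (state n (res n R c')).2.1 = true := by
  induction c', hc using Nat.le_induction with
  | base => exact h
  | succ k _ ih =>
    rw [rnd_succ]
    exact rnd_step_flag _ _ _ ih

theorem rnd_RL (S : Sys) (n : ℕ) (r : W) (prev : List W) (s : St) (h : state n prev = s) :
    S.RL n r prev = fun y => if s.1.2.length < JJ n then
      S.RT n s.1.1 ((levels n).getD s.1.2.length 0) (seed n r s.1.1.length s.1.2.length) y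
      else S.RX n s.1.2 y := by
  subst h
  rfl

/-- the candidates of a round, one after the other -/
theorem rnd_cands (S : Sys) (n : ℕ) (r : W) (c0 : ℕ) (L F : List W) (i : ℕ) (hi : L.length = i)
    (h0 : state n (res n (S.RL n r) c0) = ((L, []), (false, F))) :
    ∀ s, s ≤ JJ n → state n (res n (S.RL n r) (c0 + s)) =
      ((L, (List.range s).map (fun s' =>
        (ans n (S.RT n L ((levels n).getD s' 0) (seed n r i s'))).tail)), (false, F)) := by
  intro s
  induction s with
  | zero => intro _; exact h0
  | succ s ih =>
    intro hs
    have h1 := ih (by omega)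
    have hlen : ((List.range s).map (fun s' =>
        (ans n (S.RT n L ((levels n).getD s' 0) (seed n r i s'))).tail)).length = s := by simp
    rw [← add_assoc, rnd_succ]
    have hR : S.RL n r (res n (S.RL n r) (c0 + s)) =
        S.RT n L ((levels n).getD s 0) (seed n r i s) := by
      rw [rnd_RL S n r _ _ h1]
      funext y
      simp only [hlen, hi]
      rw [if_pos (by omega)]
    rw [hR, h1]
    unfold stepSt
    simp only [hlen]
    rw [if_pos (by omega), List.range_succ, List.map_append]
    rfl

theorem rnd_main (S : Sys) (n : ℕ) (r : W)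
    (hfin : (state n (res n (S.RL n r) ((n + 1) * (JJ n + 1)))).2.1 = false) :
    ∀ (d : ℕ) (L F : List W) (c0 i : ℕ), i + d = n + 1 → L.length = i → c0 = i * (JJ n + 1) →
      state n (res n (S.RL n r) c0) = ((L, []), (false, F)) →
      S.fails n d L (r.drop (i * (JJ n * hs n))) := by
  intro d
  induction d with
  | zero => intro L F c0 i _ _ _ _; exact trivial
  | succ d ih =>
    intro L F c0 i hid hL hc0 hst
    have h1 := rnd_cands S n r c0 L F i hL hst (JJ n) le_rfl
    have hc : (List.range (JJ n)).map (fun s' =>
        (ans n (S.RT n L ((levels n).getD s' 0) (seed n r i s'))).tail) =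
        S.cands n L (r.drop (i * (JJ n * hs n))) := by
      unfold Sys.cands
      apply List.map_congr_left
      intro s _
      have : seed n r i s = ((r.drop (i * (JJ n * hs n))).drop (s * hs n)).take (hs n) := by
        unfold seed
        rw [List.drop_drop]
        congr 2
        ring
      rw [this]
    rw [hc] at h1
    have hlen : (S.cands n L (r.drop (i * (JJ n * hs n)))).length = JJ n := by
      unfold Sys.cands; simp
    have hR : S.RL n r (res n (S.RL n r) (c0 + JJ n)) =
        S.RX n (S.cands n L (r.drop (i * (JJ n * hs n)))) := by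
      rw [rnd_RL S n r _ _ h1]
      funext y
      simp only [hlen]
      rw [if_neg (lt_irrefl _)]
    have h2 := rnd_succ n (S.RL n r) (c0 + JJ n)
    rw [hR, h1] at h2
    unfold stepSt at h2
    simp only [hlen] at h2
    rw [if_neg (lt_irrefl _)] at h2
    have hle : c0 + JJ n + 1 ≤ (n + 1) * (JJ n + 1) := by
      rw [hc0, ← hid]
      have : (i + (d + 1)) * (JJ n + 1) = i * (JJ n + 1) + JJ n + 1 + d * (JJ n + 1) := by ring
      rw [this]
      omega
    cases hh : (ans n (S.RX n (S.cands n L (r.drop (i * (JJ n * hs n)))))).headD false with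
    | false =>
      rw [hh] at h2
      have h3 : (state n (res n (S.RL n r) (c0 + JJ n + 1))).2.1 = true := by
        rw [h2]; rfl
      have h4 := rnd_flag n (S.RL n r) _ _ hle h3
      rw [hfin] at h4
      exact absurd h4 (by decide)
    | true =>
      rw [hh] at h2
      refine ⟨hh, ?_⟩
      rw [List.drop_drop]
      have h5 := ih (L ++ [(ans n (S.RX n (S.cands n L (r.drop (i * (JJ n * hs n)))))).tail]) F
        (c0 + JJ n + 1) (i + 1) (by omega) (by rw [List.length_append, hL]; rfl)
        (by rw [hc0]; ring) h2
      have e : i * (JJ n * hs n) + JJ n * hs n = (i + 1) * (JJ n * hs n) := by ring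
      rw [e]
      exact h5

theorem st_RND : ST_RND := by
  intro S n r _ hfin
  have h := rnd_main S n r hfin (n + 1) [] [] 0 0 (by omega) rfl (by simp) rfl
  rw [Nat.zero_mul, List.drop_zero] at h
  exact h

end Pool.Agent.Helper61.TQ
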